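import Pool.Agent.H660.SU.Cst

/-!
# MP_d200da_lc, Q1: projective uniformization up to proper ideals fails in a Solovay model

The answer to Q1 is negative. If some transitive model of ZFC has an inaccessible cardinal, then
there is one that satisfies `V = L` and has an inaccessible cardinal `κ` that is not a Mahlo
cardinal (for instance the least inaccessible cardinal of `L`); and over every countable transitive
model `M` of `V = L` with such a `κ`, Solovay's model `M[G]`, for `G` generic for `Col(ω, <κ)`, has
a sigma-ideal `I` on the Borel subsets of the Cantor space for which the notion of forcing `P_I`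
satisfies the countable chain condition and is proper, but projective uniformization up to `I`
fails. It fails for one lightface relation whose complement is `Σ^1_2`: the relation has full
projection, but it is not uniformized by any Borel function on any `I`-positive Borel set.

The definitions are in `Pool.Agent.H660.SU.Def`.
-/

set_option autoImplicit false

namespace Pool.Agent.Results.MP_d200da_lc.SolovayModel

open Pool.Agent.W868 Pool.Agent.W868.GM Pool.Agent.H637_NO Pool.Agent.H660.SU

theorem result :
    (∀ V : Set ZFSet.{0}, IsZFC V → (∃ κ, Inaccessible V κ) →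
      ∃ M ⊆ V, (∀ α ∈ V, α.IsOrdinal → α ∈ M) ∧ IsZFC M ∧ Constructible M ∧
        ∃ κ, Inaccessible M κ ∧ NotMahlo M κ) ∧
    ∃ φ : Fm 2 0, Cls true 2 φ ∧
      ∀ M : Set ZFSet.{0}, M.Countable → IsZFC M → Constructible M →
        ∀ κ, Inaccessible M κ → NotMahlo M κ →
          (∃ G, IsGeneric M (Col κ) (ColLe κ) G) ∧
          ∀ G, IsGeneric M (Col κ) (ColLe κ) G →
            ∃ I, IsSigmaIdeal (ext M G) I ∧ CCC (ext M G) I ∧
              IsForcing (ext M G) (PI (ext M G) I) (PILe (ext M G) I) ∧
              Proper (ext M G) (PI (ext M G) I) (PILe (ext M G) I) ∧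
              ¬ ProjUnif (ext M G) I ∧ NoUnif (ext M G) I φ := by
  refine ⟨fun V hV hK => ?_, ?_⟩
  · obtain ⟨κ, hκ⟩ := hK
    exact exists_model hV hκ
  · obtain ⟨φ, h1, h2⟩ := exists_phi
    refine ⟨φ, h1, fun M hc hM hC κ hK hn => ⟨?_, fun G hG => ?_⟩⟩
    · obtain ⟨G, hG, -⟩ := Pool.Agent.Y588.exists_gen hc
        (isForcing_Col hM.toIsZF hK.mem hK.ord) (empty_mem_Col hK.ord)
      exact ⟨G, hG⟩
    · obtain ⟨ν, hν⟩ := nu_of_notMahlo hM.toIsZF hK hn
      exact fail_of_nu (isLA_of_constructible hM.toIsZF hC) hK hG hν h2

end Pool.Agent.Results.MP_d200da_lc.SolovayModel
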